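import Pool.Agent.W8.KU.Stm

/-! KU-Smo: smoothness of the deformation. -/

open scoped Topology ContDiff
open MeasureTheory Metric

namespace Pool.Agent.W914.KU

open Pool.Agent.W8.KU

theorem cut_smooth (u v : ℝ) : ContDiff ℝ ∞ (cut u v) := by
  unfold cut
  refine contDiff_const.sub (Real.smoothTransition.contDiff.comp ?_)
  fun_prop

theorem Smo_proof : Smo := by
  intro hR t x ht
  obtain ⟨-, -, -, -, -, -, -, -, -, ha, hb, hc⟩ := hR.2 t ht
  have h1 : ContDiffAt ℝ ∞ (fun q : ℝ × E3 => q.2) (t, x) := contDiffAt_snd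
  have ha' : ContDiffAt ℝ ∞ (fun q : ℝ × E3 => ra q.1) (t, x) :=
    ha.comp (t, x) (f := fun q : ℝ × E3 => q.1) contDiffAt_fst
  have hb' : ContDiffAt ℝ ∞ (fun q : ℝ × E3 => rb q.1) (t, x) :=
    hb.comp (t, x) (f := fun q : ℝ × E3 => q.1) contDiffAt_fst
  have hc' : ContDiffAt ℝ ∞ (fun q : ℝ × E3 => rc q.1) (t, x) :=
    hc.comp (t, x) (f := fun q : ℝ × E3 => q.1) contDiffAt_fst
  have hn : ∀ (u v : ℝ) (z : E3),
      ContDiffAt ℝ ∞ (fun q : ℝ × E3 => cut u v (‖q.2 - z‖ ^ 2)) (t, x) := by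
    intro u v z
    refine ContDiff.contDiffAt ((cut_smooth u v).comp ?_)
    exact (contDiff_snd.sub contDiff_const).norm_sq ℝ
  have hn0 : ∀ (u v : ℝ),
      ContDiffAt ℝ ∞ (fun q : ℝ × E3 => cut u v (‖q.2‖ ^ 2)) (t, x) := by
    intro u v
    simpa using hn u v 0
  have e1 : ContDiffAt ℝ ∞ (fun q : ℝ × E3 => (ra q.1 / 2 - 1) * cut 7 8 (‖q.2 - P0‖ ^ 2))
      (t, x) := ((ha'.div_const _).sub contDiffAt_const).mul (hn 7 8 P0)
  have e2 : ContDiffAt ℝ ∞ (fun q : ℝ × E3 => (rc q.1 / 3 - 1) * cut 16 20 (‖q.2‖ ^ 2) +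
      (rb q.1 / 6 - 1) * (cut 49 60 (‖q.2‖ ^ 2) * (1 - cut 21 25 (‖q.2‖ ^ 2)))) (t, x) :=
    (((hc'.div_const _).sub contDiffAt_const).mul (hn0 16 20)).add
      (((hb'.div_const _).sub contDiffAt_const).mul
        ((hn0 49 60).mul (contDiffAt_const.sub (hn0 21 25))))
  exact (h1.add (e1.smul (h1.sub contDiffAt_const))).add (e2.smul h1)

end Pool.Agent.W914.KU
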